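import Pool.Agent.H37.CNM.Stmts
import Pool.Agent.H14.CNS.OM1

/-!
# Row APA of the board `cnm`: the relative form of row `PCG` of the board `cnk`

The series `R_i` of the hint is `E ⊓ ser G p (i + 1)` with the series `ser` of `OM1`.
-/

set_option autoImplicit false

namespace Pool.CND

namespace APA

open OM1

variable {G : Type} [Group G] {p : ℕ}

/-- the step -/
theorem step (hp : p.Prime) (hp2 : p ≠ 2) (E : Subgroup G) (hE : E.Normal)
    (hcen : ∀ x ∈ E, x ^ p = 1 → x ∈ Subgroup.center G) (n : ℕ) :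
    ∀ w ∈ E, w ∈ (ser G p (n + 2)).1 → w ^ p ∈ (ser G p n).1 → w ∈ (ser G p (n + 1)).1 := by
  induction n with
  | zero =>
    intro w hwE _ hwp
    have h1 : w ^ p = 1 := hwp
    exact (mem_ser_one w).2 ⟨hcen w hwE h1, h1⟩
  | succ n ih =>
    intro w hwE hw hwp
    have hw' := (mem_ser_succ (n + 2) w).1 hw
    refine (mem_ser_succ (n + 1) w).2 ⟨fun g => ?_, hwp⟩
    set s := g * w * g⁻¹ * w⁻¹ with hs
    have hs2 : s ∈ (ser G p (n + 2)).1 := hw'.1 g
    have hsE : s ∈ E := mul_mem (hE.conj_mem w hwE g) (inv_mem hwE)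
    refine ih s hsE hs2 ?_
    have h1 : s * w = g * w * g⁻¹ := by
      rw [hs]
      group
    have h2 : ((s * w) ^ p) * (w ^ p)⁻¹ ∈ (ser G p n).1 := by
      rw [h1, conj_pow]
      exact ((mem_ser_succ n (w ^ p)).1 hwp).1 g
    -- the commutator of `w` and `s`
    set c := w * s * w⁻¹ * s⁻¹ with hcd
    have hc : c ∈ (ser G p (n + 1)).1 := ((mem_ser_succ (n + 1) s).1 hs2).1 w
    have hc' : (c : G ⧸ (ser G p n).1) ∈ om (G ⧸ (ser G p n).1) p := hc
    have h3 : w * s = c * s * w := by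
      rw [hcd]
      group
    have h4 := mul_pow_prime hp hp2 (s : G ⧸ (ser G p n).1) (w : G ⧸ (ser G p n).1)
      (c : G ⧸ (ser G p n).1) hc'.1 hc'.2 (by
        rw [← QuotientGroup.mk_mul, ← QuotientGroup.mk_mul, ← QuotientGroup.mk_mul, h3])
    rw [← QuotientGroup.eq_one_iff] at h2 ⊢
    rw [QuotientGroup.mk_mul, QuotientGroup.mk_pow, QuotientGroup.mk_mul, h4,
      QuotientGroup.mk_inv, QuotientGroup.mk_pow, mul_inv_cancel_right] at h2
    rw [QuotientGroup.mk_pow]
    exact h2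

end APA

open OM1 in
theorem apa_thm : S_APA := by
  intro p G _ _ E hp hp2 ⟨a, ha⟩ hE hcen w hwE g hw
  have hG : IsPGroup p G := IsPGroup.of_card ha
  obtain ⟨n, hn⟩ := exists_top hp hG
  have mono : ∀ m : ℕ, (ser G p 1).1 ≤ (ser G p (m + 1)).1 := by
    intro m
    induction m with
    | zero => exact le_refl _
    | succ m ih => exact ih.trans (ser_mono (m + 1))
  have hwp : w ^ p ∈ (ser G p 1).1 := (mem_ser_one _).2 ⟨hcen _ (pow_mem hwE p) hw, hw⟩
  have key : ∀ m : ℕ, w ∈ (ser G p (m + 2)).1 → w ∈ (ser G p 2).1 := by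
    intro m
    induction m with
    | zero => exact id
    | succ m ih =>
      intro h
      exact ih (APA.step hp hp2 E hE hcen (m + 1) w hwE h (mono m hwp))
  have h1 : w ∈ (ser G p (n + 2)).1 :=
    ser_mono (n + 1) (ser_mono n (by rw [hn]; trivial))
  have h2 := ((mem_ser_succ 1 w).1 (key n h1)).1 g
  have h3 := ((mem_ser_one _).1 h2).2
  have h4 : w * g * w⁻¹ * g⁻¹ = (g * w * g⁻¹ * w⁻¹)⁻¹ := by group
  rw [h4, inv_pow, h3, inv_one]

end Pool.CND
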